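import Pool.Agent.K4H81.LPM.Proof

/-!
# Lattice path matroids are definable in `MS₀`

There is a sentence of the monadic second-order logic `MS₀` of matroids that holds in a finite matroid
exactly when it is a lattice path matroid. The definitions of the statement are in
`Pool.Agent.K4H81.LPM.Defs`, the proof is in `Pool.Agent.K4H81.LPM.Proof`.
-/

set_option autoImplicit false

namespace Pool.Agent.Results.MP_b5ca43_co.LatticePathSentence

open Pool.Agent.K4H81.LPM

universe u

/-- There is a sentence of `MS₀` that holds in a finite matroid exactly when it is a lattice path
matroid. -/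
theorem result : ∃ φ : Formula, φ.IsSentence ∧
    ∀ (α : Type u) (M : Matroid α) [M.Finite] (v : ℕ → Set α),
      Sat M v φ ↔ IsLatticePathMatroid M :=
  ⟨sentence, isSentence_sentence, fun _ _ _ _ => sentence_iff⟩

end Pool.Agent.Results.MP_b5ca43_co.LatticePathSentence
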